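import Pool.Agent.Helper39.Uct.Goals4
import Pool.Agent.Helper75.Uct2.Zorn2
import Pool.Agent.Helper27.Uct2.IDL

/-! # FNL: the third theorem from its parts -/

set_option autoImplicit false

open scoped ComplexOrder

namespace Pool.Agent.Helper42.Uct3

open Pool.Agent.Helper39.Uct Fib

/-- The trivial grading. -/
def trivFib (A : Type) [NonUnitalCStarAlgebra A] : Fib Unit A where
  fib := fun _ => ⊤
  closed := fun _ => isClosed_univ
  mul_mem := fun _ _ _ _ _ _ => Submodule.mem_top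
  star_mem := fun _ _ _ => Submodule.mem_top
  dense := by
    rw [iSup_const]
    exact IsClosed.submodule_topologicalClosure_eq isClosed_univ

theorem fnl (hZ : S_ZORN2) (hI : S_IDL) (hG : S_GD2) (hT : S_TCP) (hQ : S_TQP) : S_FNL := by
  intro 𝒩 𝒞 h B _ _ hB hW
  refine hZ 𝒞 (fun A => 𝒩 A ∧ WGV A) ?_ h.ext h.union ?_ ?_ B ⟨hB, hW⟩
  · intro A _ hA
    have hN : 𝒩 A := h.quot B A (0 : B →⋆ₙₐ[ℂ] A) (fun a => ⟨0, Subsingleton.elim _ _⟩) hB
    exact h.graded A hN Unit (trivFib A) (fun x _ y _ => Subsingleton.elim _ _)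
      (fun s b _ _ => by
        rw [Subsingleton.elim (b 1) 0, norm_zero]
        exact norm_nonneg _)
  · intro A A' _ _ π hπ hA
    exact ⟨h.quot A A' π hπ hA.1, hQ A A' π hπ hA.2⟩
  · intro A _ _ hA hn
    obtain ⟨H, _, ι, hι, hHn, Q, _, G, hC, hV⟩ := hT A hA.2 hn
    obtain ⟨H', _, ι', hι', hHn', Q', _, G', hC', hTop⟩ := hG Q H G hC hV hHn
    have hcomp : Hered (ι.comp ι') := t_HT H' H A ι' ι hι' hι
    have hsep : TopologicalSpace.SeparableSpace H' := Helper43.Uct.sep_of_inj (ι.comp ι') hcomp.1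
    have hN' : 𝒩 H' := h.sub H' A (ι.comp ι') hcomp hA.1
    exact hI 𝒞 h.hered H' A (ι.comp ι') hcomp hHn' (h.graded H' hN' Q' G' hC' hTop)

/-- The packet. -/
theorem fnl' : S_GD2 → S_TCP → S_TQP → S_FNL :=
  fnl Pool.Agent.Helper75.Uct2.t_ZORN2 Pool.Agent.Helper27.Uct2.idl

end Pool.Agent.Helper42.Uct3
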