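import Pool.Agent.Helper39.Uct.Goals4

/-! # SELP: the selection argument with virtually polycyclic stabilisers -/

set_option autoImplicit false

open scoped ComplexOrder

namespace Pool.Agent.Helper42.Uct3

open Pool.Agent.Helper39.Uct Pool.Agent.Helper17.Uct Fib

section

variable {Q : Type} [Group Q] {B : Type} [NonUnitalCStarAlgebra B] {G : Fib Q B}

theorem vpc_of_le {D S : Subgroup Q} (h : D ≤ S) (hS : VPC S) : VPC D :=
  Helper43.Uct.vpc_of_injective (Subgroup.inclusion h) (Subgroup.inclusion_injective h) hS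

theorem fg_of_vpc {D : Subgroup Q} (h : VPC D) : D.FG := by
  have h1 : (⊤ : Subgroup D).FG := h.1 ⊤
  exact (Group.fg_iff_subgroup_fg D).1 (Group.fg_def.2 h1)

theorem exists_stableP (hPF : PF G) (hPE : S_PE) (hC : G.Comm) (hV : VSt G) (hMAX : S_MAXC)
    {d : B} (hd : d ∈ G.fib 1) (hsa : IsSelfAdjoint d) (hd0 : d ≠ 0) (L : Subgroup Q)
    (hL : ∀ l ∈ L, ∀ φ : G.Pt, φ d ≠ 0 → l ∈ G.St φ) :
    ∃ d₁ ∈ G.fib 1, IsSelfAdjoint d₁ ∧ d₁ ≠ 0 ∧ (∃ c ∈ G.fib 1, d₁ = d * c) ∧ ∃ D : Subgroup Q,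
      (∀ q ∈ D, ∀ φ : G.Pt, φ d₁ ≠ 0 → q ∈ G.DD φ L) ∧
      ∀ d' ∈ G.fib 1, d₁ * d' ≠ 0 → ∀ q, (∀ φ : G.Pt, φ (d₁ * d') ≠ 0 → q ∈ G.DD φ L) →
        q ∈ D := by
  obtain ⟨d₁, D, ⟨h1, h2, h3, h4⟩, -, ⟨c₁, hc₁, hdc⟩, hmax⟩ := hMAX Q B G hC hV
    (fun d H => d ∈ G.fib 1 ∧ IsSelfAdjoint d ∧ d ≠ 0 ∧ ∀ φ : G.Pt, φ d ≠ 0 → ∀ x ∈ H, x ∈ G.DD φ L)
    (fun d H h => ⟨h.1, h.2.1, h.2.2.1, fun φ hφ x hx => (h.2.2.2 φ hφ x hx).1⟩)
    (fun d H h c hc hsa' hne => ⟨one_mul_mem h.1 hc, hsa', hne, fun φ hφ x hx =>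
      h.2.2.2 φ (phi_left h.1 hc hφ).1 x hx⟩)
    d ⊥ ⟨hd, hsa, hd0, fun φ hφ x hx => by
      rw [Subgroup.mem_bot.1 hx]
      exact dd_one hPF fun l hl => hL l hl φ hφ⟩
  refine ⟨d₁, h1, h2, h3, ⟨c₁, hc₁, hdc⟩, D, fun q hq φ hφ => h4 φ hφ q hq, ?_⟩
  have hsb : Sb G d₁ d := by
    rw [hdc]
    exact Sb.mul hC hd hc₁
  intro d' hd' hne q hq
  have k1 : star d' * d' ∈ G.fib 1 := one_mul_mem (one_star_mem hd') hd'
  have k2 : IsSelfAdjoint (star d' * d') := IsSelfAdjoint.star_mul_self d'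
  have k3 : ∀ φ : G.Pt, φ (d₁ * d') ≠ 0 → φ (d₁ * (star d' * d')) ≠ 0 := by
    intro φ hφ
    obtain ⟨a1, a2⟩ := phi_left h1 hd' hφ
    refine phi_mul h1 k1 a1 (phi_mul (one_star_mem hd') hd' ?_ a2)
    rw [hPF.herm]
    exact star_ne_zero.2 a2
  have k4 : ∀ φ : G.Pt, φ (d₁ * (star d' * d')) ≠ 0 → φ (d₁ * d') ≠ 0 := by
    intro φ hφ
    obtain ⟨a1, a2⟩ := phi_left h1 k1 hφ
    exact phi_mul h1 hd' a1 (phi_left (one_star_mem hd') hd' a2).2
  obtain ⟨φ₀, hφ₀⟩ := exists_phi hPE hC (one_mul_mem h1 hd') hne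
  have k5 : d₁ * (star d' * d') ∈ G.fib 1 := one_mul_mem h1 k1
  have k6 := Sb.mul hC h1 k1
  have hL2 : ∀ l ∈ L, ∀ φ : G.Pt, φ (d₁ * (star d' * d')) ≠ 0 → l ∈ G.St φ :=
    fun l hl φ hφ => hL l hl φ ((k6.trans hsb).1 φ hφ)
  have heq := hmax _ k1 (EE hPF (d₁ * (star d' * d')) L hL2)
    (fun x hx φ hφ => h4 φ (k6.1 φ hφ) x hx)
    ⟨k5, sa_mul hC h1 k1 h2 k2, ne_of_phi (k3 φ₀ hφ₀), fun φ hφ x hx => hx φ hφ⟩
  rw [← heq]
  intro φ hφ
  exact hq φ (k4 φ hφ)

end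

theorem selp (hMAX : S_MAXC) (hGL : S_GLP) : S_SELP := by
  intro Q _ B _ G hC hV dd₀ hdd1 hdd2 hdd3
  have hPF := t_PF
  have hPE := t_PE
  have hNRM := t_NRM
  have hL2 := t_L2
  have pf := hPF Q B G hC
  -- a maximal system
  obtain ⟨d₀, L, hsys₀, -, ⟨c₀, hc₀, hdc₀⟩, hmaxL₀⟩ := hMAX Q B G hC hV (Sys G)
    (fun d H h => ⟨h.mem, h.sa, h.ne, fun φ hφ x hx => h.fix.1 x hx φ hφ⟩)
    (fun d H h c hc hsa' hne => h.restrict hPE hC (one_mul_mem h.mem hc) hsa' hne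
      (Sb.mul hC h.mem hc)) dd₀ ⊥ (sys_bot pf hdd1 hdd2 hdd3)
  obtain ⟨d, hd, hsa, hd0, ⟨c₁, hc₁, hdc₁⟩, D, hD1, hD2⟩ := exists_stableP pf hPE hC hV hMAX
    hsys₀.mem hsys₀.sa hsys₀.ne L hsys₀.fix.1
  have hsb : Sb G d d₀ := by
    rw [hdc₁]
    exact Sb.mul hC hsys₀.mem hc₁
  have hsys := hsys₀.restrict hPE hC hd hsa hd0 hsb
  have hmaxL : ∀ c ∈ G.fib 1, ∀ H', L ≤ H' → Sys G (d * c) H' → H' = L := by
    intro c hc H' hH hs
    refine hmaxL₀ (c₁ * c) (one_mul_mem hc₁ hc) H' hH ?_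
    rw [← mul_assoc, ← hdc₁]
    exact hs
  have hdbelow : ∀ c ∈ G.fib 1, ∃ c' ∈ G.fib 1, d * c = dd₀ * c' := by
    intro c hc
    refine ⟨c₀ * (c₁ * c), one_mul_mem hc₀ (one_mul_mem hc₁ hc), ?_⟩
    rw [hdc₁, hdc₀]
    simp only [mul_assoc]
  clear hsys₀ hsb hmaxL₀
  obtain ⟨φd, hφd⟩ := exists_phi hPE hC hd hd0
  obtain ⟨SS, hSS, hSS2⟩ := hV φd
  have hnorm : ∀ q ∈ G.M0 d, ∀ x ∈ D, q * x * q⁻¹ ∈ D := fun q hq x hx =>
    stable_norm hNRM hC hd hsa hsys.fix hD1 hD2 hq hx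
  by_cases hDb : D = ⊥
  · left
    have hLfg : L.FG := fg_of_vpc (vpc_of_le (fun l hl => hSS2 (hsys.fix.1 l hl φd hφd)) hSS)
    refine ⟨d, hd, hsa, hd0, hL2 Q B G hC d L hd hsa hLfg hsys.tf hsys.fix ?_⟩
    intro q hq d' hd' hne
    by_contra hcon
    push Not at hcon
    have h1 := hD2 d' hd' hne q hcon
    rw [hDb, Subgroup.mem_bot] at h1
    exact hq h1
  · have hDV : VPC D := vpc_of_le (fun x hx => hSS2 (hD1 x hx φd hφd).1) hSS
    obtain ⟨K, hKD, hKb, hKn, hK⟩ := hGL Q D hDV hDb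
    have hfixK : Fix G d K := by
      refine ⟨fun k hk φ hφ => (hD1 k (hKD hk) φ hφ).1, ?_⟩
      intro q hq k hk
      refine (hKn q ?_ k).1 hk
      intro x
      constructor
      · exact hnorm q hq x
      · intro hx
        have h1 := hnorm q⁻¹ (m0_inv hsa hq) _ hx
        have h2 : q⁻¹ * (q * x * q⁻¹) * q⁻¹⁻¹ = x := by group
        rwa [h2] at h1
    rcases hK with hfin | ⟨hab, htf⟩
    · right; left
      refine ⟨d, hd, hsa, hd0, ?_, K, hKb, hfin, hfixK⟩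
      exact ⟨c₀ * c₁, one_mul_mem hc₀ hc₁, by rw [hdc₁, hdc₀]; simp only [mul_assoc]⟩
    · right; right
      obtain ⟨d₁, hd₁, hsa₁, hd₁0, ⟨c₂, hc₂, hdc₂⟩, D', hD1', hD2'⟩ := exists_stableP pf hPE hC hV
        hMAX hd hsa hd0 K hfixK.1
      have hsb₁ : Sb G d₁ d := by
        rw [hdc₂]
        exact Sb.mul hC hd hc₂
      have hfixK₁ : Fix G d₁ K := Fix.sb hfixK hsb₁
      by_cases hR : D' ⊓ K = ⊥
      · exfalso
        have hsys₁ := hsys.restrict hPE hC hd₁ hsa₁ hd₁0 hsb₁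
        -- `K` and `L` are independent and commute
        have hKL : ∀ x ∈ K, x ∈ L → x = 1 := by
          intro x hxK hxL
          by_contra hx1
          have h1 : d * d ≠ 0 := by
            intro h0
            apply hd0
            rw [← CStarRing.star_mul_self_eq_zero_iff, hsa.star_eq]
            exact h0
          obtain ⟨φ, hφ, hφ2⟩ := hsys.sep d hd h1 x hxL hx1
          exact hφ2 (hD1 x (hKD hxK) φ (phi_left hd hd hφ).1)
        have hcomm : ∀ k ∈ K, ∀ l ∈ L, k * l = l * k := by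
          intro k hk l hl
          obtain ⟨φ, hφ⟩ := exists_phi hPE hC hd hd0
          exact ((hD1 k (hKD hk) φ hφ).2 l hl).1
        let N : Subgroup Q :=
          { carrier := {x | ∃ l ∈ L, ∃ k ∈ K, x = l * k}
            one_mem' := ⟨1, L.one_mem, 1, K.one_mem, (mul_one 1).symm⟩
            mul_mem' := by
              rintro _ _ ⟨l, hl, k, hk, rfl⟩ ⟨l', hl', k', hk', rfl⟩
              refine ⟨l * l', L.mul_mem hl hl', k * k', K.mul_mem hk hk', ?_⟩
              calc l * k * (l' * k') = l * (k * l') * k' := by group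
                _ = l * (l' * k) * k' := by rw [hcomm k hk l' hl']
                _ = l * l' * (k * k') := by group
            inv_mem' := by
              rintro _ ⟨l, hl, k, hk, rfl⟩
              refine ⟨l⁻¹, L.inv_mem hl, k⁻¹, K.inv_mem hk, ?_⟩
              rw [mul_inv_rev]
              exact hcomm k⁻¹ (K.inv_mem hk) l⁻¹ (L.inv_mem hl) }
        have hLN : L ≤ N := fun l hl => ⟨l, hl, 1, K.one_mem, (mul_one l).symm⟩
        have hKN : K ≤ N := fun k hk => ⟨1, L.one_mem, k, hk, (one_mul k).symm⟩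
        have hsysN : Sys G d₁ N := by
          refine ⟨hd₁, hsa₁, hd₁0, ⟨?_, ?_⟩, ⟨?_, ?_⟩, ?_⟩
          · rintro _ ⟨l, hl, k, hk, rfl⟩ _ ⟨l', hl', k', hk', rfl⟩
            calc l * k * (l' * k') = l * (k * l') * k' := by group
              _ = l * (l' * k) * k' := by rw [hcomm k hk l' hl']
              _ = (l * l') * (k * k') := by group
              _ = (l' * l) * (k' * k) := by rw [hsys.tf.1 l hl l' hl', hab k hk k' hk']
              _ = l' * (l * k') * k := by group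
              _ = l' * (k' * l) * k := by rw [hcomm k' hk' l hl]
              _ = l' * k' * (l * k) := by group
          · rintro _ ⟨l, hl, k, hk, rfl⟩ n hn h1
            have hc : Commute l k := (hcomm k hk l hl).symm
            rw [hc.mul_pow] at h1
            have h2 : k ^ n = (l ^ n)⁻¹ := (eq_inv_of_mul_eq_one_right h1)
            have h3 : k ^ n = 1 := hKL _ (K.pow_mem hk n) (by
              rw [h2]
              exact L.inv_mem (L.pow_mem hl n))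
            have h4 : l ^ n = 1 := by
              rw [h3, mul_one] at h1
              exact h1
            rw [hsys.tf.2 l hl n hn h4, htf k hk n hn h3, mul_one]
          · rintro _ ⟨l, hl, k, hk, rfl⟩ φ hφ
            exact pf.st_mul φ l k (hsys₁.fix.1 l hl φ hφ) (hfixK₁.1 k hk φ hφ)
          · rintro q hq _ ⟨l, hl, k, hk, rfl⟩
            refine ⟨q * l * q⁻¹, hsys₁.fix.2 q hq l hl, q * k * q⁻¹, hfixK₁.2 q hq k hk, ?_⟩
            group
          · rintro d' hd' hne _ ⟨l, hl, k, hk, rfl⟩ hx1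
            by_contra hcon
            push Not at hcon
            -- `hcon : ∀ φ, φ (d₁ * d') ≠ 0 → l * k ∈ DD φ N`
            have h1 : ∀ φ : G.Pt, φ (d₁ * d') ≠ 0 → l ∈ G.DD φ L := by
              intro φ hφ
              have hφ1 := (phi_left hd₁ hd' hφ).1
              have hφd := hsb₁.1 φ hφ1
              have hLφ : ∀ l ∈ L, l ∈ G.St φ := fun l hl => hsys₁.fix.1 l hl φ hφ1
              have h2 := dd_anti hLN (hcon φ hφ)
              have h3 := dd_inv pf hLφ (hD1 k (hKD hk) φ hφd)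
              have h4 := dd_mul pf hLφ h2 h3
              rwa [mul_inv_cancel_right] at h4
            have h2 : l = 1 := by
              by_contra hl1
              obtain ⟨φ, hφ, hφ2⟩ := hsys₁.sep d' hd' hne l hl hl1
              exact hφ2 (h1 φ hφ)
            subst h2
            rw [one_mul] at hcon hx1
            have h3 : k ∈ D' := hD2' d' hd' hne k fun φ hφ => dd_anti hKN (hcon φ hφ)
            have h4 : k ∈ D' ⊓ K := ⟨h3, hk⟩
            rw [hR, Subgroup.mem_bot] at h4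
            exact hx1 h4
        have hlt : L < N := by
          refine lt_of_le_of_ne hLN ?_
          intro heq
          apply hKb
          rw [eq_bot_iff]
          intro k hk
          rw [Subgroup.mem_bot]
          apply hKL k hk
          rw [heq]
          exact hKN hk
        refine absurd (hmaxL c₂ hc₂ N hLN ?_) hlt.ne'
        rw [← hdc₂]
        exact hsysN
      · refine ⟨d₁, hd₁, hsa₁, hd₁0, ?_, D' ⊓ K, hR, ⟨?_, ?_⟩, ?_⟩
        · rw [hdc₂]
          exact hdbelow c₂ hc₂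
        · intro l hl φ hφ
          exact (hD1' l hl.1 φ hφ).1
        · intro q hq l hl
          exact ⟨stable_norm hNRM hC hd₁ hsa₁ hfixK₁ hD1' hD2' hq hl.1, hfixK₁.2 q hq l hl.2⟩
        · intro k hk k' hk' φ hφ
          exact (hD1' k hk.1 φ hφ).2 k' hk'.2

end Pool.Agent.Helper42.Uct3
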